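import Pool.Agent.H61.KV.TE
import Pool.Agent.H61.KV.TS

/-! Kuiper board KV, module CMN. -/

open Topology Set
open Pool.Agent.H59 Pool.Agent.H64.LB Pool.Agent.H61.KU

namespace Pool.Agent.H86.KV

open Pool.Agent.H61.KV

theorem pf_CMN (h1 : T_FCB) (h2 : T_CNC) (h3 : T_ST) (h4 : T_STM) (h5 : T_FTU) (h6 : T_FTR)
    (h7 : T_EBD) : T_CMN := by
  intro V _ _ _ m hm hsg p γ t t₂ v v₂ hp hγ hγ0 ht ht₂ hne hv hv₂ hvv
  obtain ⟨hC, -, -, -, hMC, -, hMs, -⟩ := h2 V m hm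
  set C := Cn m with hCdef
  by_contra hcon
  push Not at hcon
  have hpC : p ∈ C := hp.1
  have hγC : γ ∈ C := by
    have := (h5 V C p hC hpC).1 γ γ hγ
    exact this.1
  have htC : t ∈ C := ht.1.1
  have ht₂C : t₂ ∈ C := ht₂.1.1
  have hg1 : γ + t ∈ C := hC.add _ hγC _ htC
  have hg2 : γ + t₂ ∈ C := hC.add _ hγC _ ht₂C
  obtain ⟨F1a, F1b, F1c, F1d, F1e, F1f, F1g⟩ := h1 V C (γ + t) hC hg1
  obtain ⟨F2a, F2b, F2c, F2d, F2e, F2f, F2g⟩ := h1 V C (γ + t₂) hC hg2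
  obtain ⟨U1, U2, U3, U4⟩ := h5 V C p hC hpC
  obtain ⟨ε, hε, hεv⟩ := F1f v hv
  obtain ⟨ε₂, hε₂, hεv₂⟩ := F2f v₂ hv₂
  set d := min ε ε₂ with hd
  have hd0 : 0 < d := lt_min hε hε₂
  have hq1 : γ + t + d • v ∈ Fc C (γ + t) := hεv d hd0.le (min_le_left _ _)
  have hq2 : γ + t₂ + d • v₂ ∈ Fc C (γ + t₂) := hεv₂ d hd0.le (min_le_right _ _)
  set q1 := γ + t + d • v with hq1d
  set q2 := γ + t₂ + d • v₂ with hq2d
  have htS : t ∈ Sp C p := Submodule.subset_span ht.1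
  have ht₂S : t₂ ∈ Sp C p := Submodule.subset_span ht₂.1
  have hqq : q1 - q2 ∈ Sp C p := by
    have : q1 - q2 = (t - t₂) + d • (v - v₂) := by
      rw [hq1d, hq2d]; module
    rw [this]
    exact Submodule.add_mem _ (Submodule.sub_mem _ htS ht₂S) (Submodule.smul_mem _ _ hvv)
  obtain ⟨γ', hγ'1⟩ := h3 V m hm p hp q1 hq1.1
  obtain ⟨γ'', hγ''⟩ := h3 V m hm p hp q2 hq2.1
  have e : γ' = γ'' := U3 q1 q2 γ' γ'' hqq hγ'1 hγ''
  subst e
  obtain ⟨hγ'C, hγ'q, -⟩ := U1 q1 γ' hγ'1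
  have hγ'F1 : γ' ∈ Fc C (γ + t) := by
    have a : q1 - γ' ∈ Fc C p := U2 q1 γ' hq1.1 hγ'1
    exact (F1c γ' hγ'C (q1 - γ') a.1 (by rw [add_sub_cancel]; exact hq1)).1
  have hγ'F2 : γ' ∈ Fc C (γ + t₂) := by
    have a : q2 - γ' ∈ Fc C p := U2 q2 γ' hq2.1 hγ''
    exact (F2c γ' hγ'C (q2 - γ') a.1 (by rw [add_sub_cancel]; exact hq2)).1
  have hnot : ∀ c : ℝ, γ' - c • γ ∉ Sp C p := by
    intro c hc
    apply hcon (d⁻¹ * (c - 1))
    have e1 : v - (d⁻¹ * (c - 1)) • γ = d⁻¹ • ((γ' - c • γ) - (γ' - q1) - t) := by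
      rw [hq1d]
      have : d⁻¹ • ((γ' - c • γ) - (γ' - (γ + t + d • v)) - t) =
          (d⁻¹ * d) • v - (d⁻¹ * (c - 1)) • γ := by module
      rw [this, inv_mul_cancel₀ hd0.ne', one_smul]
    rw [e1]
    exact Submodule.smul_mem _ _ (Submodule.sub_mem _ (Submodule.sub_mem _ hc hγ'q) htS)
  have hγM : γ ∈ Mh m := (h4 V m hm p hp γ γ hγ).2.1
  have hγ'M : γ' ∈ Mh m := (h4 V m hm p hp q1 γ' hγ'1).2.1
  obtain ⟨a, x, ha, rfl⟩ := hγM
  obtain ⟨a', y, ha', rfl⟩ := hγ'M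
  have ha0 : 0 < a := by
    rcases ha.eq_or_lt with h | h
    · rw [← h, zero_smul] at hγ0; exact absurd rfl hγ0
    · exact h
  have ha'0 : 0 < a' := by
    rcases ha'.eq_or_lt with h | h
    · exfalso
      apply hnot 0
      rw [← h, zero_smul, zero_smul, sub_zero]
      exact Submodule.zero_mem _
    · exact h
  have hxy : x ≠ y := by
    rintro rfl
    apply hnot (a' * a⁻¹)
    rw [smul_smul, mul_assoc, inv_mul_cancel₀ ha0.ne', mul_one, sub_self]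
    exact Submodule.zero_mem _
  obtain ⟨s, s', hs, hs', hnM⟩ := hsg x y hxy
  have hxF1 : a • m x ∈ Fc C (a • m x + t) := (h6 V C p _ t hC hpC hγC ht.1 hγ).1
  have hxF2 : a • m x ∈ Fc C (a • m x + t₂) := (h6 V C p _ t₂ hC hpC hγC ht₂.1 hγ).1
  have hw : ∀ tt, IsCC (Fc C (a • m x + tt)) → a • m x ∈ Fc C (a • m x + tt) →
      a' • m y ∈ Fc C (a • m x + tt) → s • m x + s' • m y ∈ Fc C (a • m x + tt) := by
    intro tt hF b1 b2
    have e1 : s • m x = (s * a⁻¹) • a • m x := by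
      rw [smul_smul, mul_assoc, inv_mul_cancel₀ ha0.ne', mul_one]
    have e2 : s' • m y = (s' * a'⁻¹) • a' • m y := by
      rw [smul_smul, mul_assoc, inv_mul_cancel₀ ha'0.ne', mul_one]
    rw [e1, e2]
    exact hF.add _ (hF.smul _ (by positivity) _ b1) _ (hF.smul _ (by positivity) _ b2)
  have hw1 := hw t F1b hxF1 hγ'F1
  have hw2 := hw t₂ F2b hxF2 hγ'F2
  set w := s • m x + s' • m y with hwd
  obtain ⟨gw, hgw⟩ := h3 V m hm p hp w hw1.1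
  obtain ⟨hgwC, -, -⟩ := U1 w gw hgw
  have hr : w - gw ∈ Fc C p := U2 w gw hw1.1 hgw
  have hr1 : w - gw ∈ Fc C (a • m x + t) :=
    (F1c gw hgwC (w - gw) hr.1 (by rw [add_sub_cancel]; exact hw1)).2
  have hr2 : w - gw ∈ Fc C (a • m x + t₂) :=
    (F2c gw hgwC (w - gw) hr.1 (by rw [add_sub_cancel]; exact hw2)).2
  have hrt : w - gw ∈ Fc C t := (h6 V C p _ t hC hpC hγC ht.1 hγ).2.2 _ hr hr1
  have hrt₂ : w - gw ∈ Fc C t₂ := (h6 V C p _ t₂ hC hpC hγC ht₂.1 hγ).2.2 _ hr hr2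
  obtain ⟨c, hc⟩ := (h7 V m hm hsg p t hp ht).2.2 _ hrt
  obtain ⟨c', hc'⟩ := (h7 V m hm hsg p t₂ hp ht₂).2.2 _ hrt₂
  have hr0 : w - gw = 0 := by
    by_contra hr0
    have hc'0 : c' ≠ 0 := by
      rintro rfl
      rw [zero_smul] at hc'
      exact hr0 hc'
    apply hne
    rw [Submodule.mem_span_singleton]
    refine ⟨c'⁻¹ * c, ?_⟩
    rw [mul_smul, ← hc, hc', smul_smul, inv_mul_cancel₀ hc'0, one_smul]
  have hwg : w = gw := sub_eq_zero.1 hr0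
  apply hnM
  rw [hwg]
  exact (h4 V m hm p hp w gw hgw).2.1

end Pool.Agent.H86.KV
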