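import Pool.Agent.H61.KV.TF

/-! Kuiper board KV, module SCF. -/

open Topology Set
open scoped Pointwise

namespace Pool.Agent.H86.KV

open Pool.Agent.H61.KV

lemma int_pt {T : Set F4} (hT : IsCC T) {p : F4} (hp : p ∈ interior T) (r : F4) :
    ∃ c : ℝ, 0 < c ∧ c • p - r ∈ T := by
  have ht : Filter.Tendsto (fun δ : ℝ => p - δ • r) (𝓝 0) (𝓝 p) := by
    have : Continuous (fun δ : ℝ => p - δ • r) := by fun_prop
    have := this.tendsto 0
    simpa using this
  have he : ∀ᶠ δ in 𝓝 (0 : ℝ), p - δ • r ∈ T := ht (mem_interior_iff_mem_nhds.1 hp)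
  have he' : ∀ᶠ δ in 𝓝[>] (0 : ℝ), p - δ • r ∈ T := he.filter_mono nhdsWithin_le_nhds
  obtain ⟨δ, h1, h2⟩ := (he'.and self_mem_nhdsWithin).exists
  have h2' : 0 < δ := h2
  refine ⟨δ⁻¹, inv_pos.2 h2', ?_⟩
  have := hT.smul δ⁻¹ (inv_pos.2 h2').le _ h1
  rw [smul_sub, smul_smul, inv_mul_cancel₀ h2'.ne', one_smul] at this
  exact this

lemma pointed {T : Set F4} (hT : IsCC T) {v : F4} (h1 : v ∈ T) (h2 : -v ∈ T) : v = 0 := by
  by_contra h
  obtain ⟨e, he⟩ := hT.pos
  have a := he v h1 h
  have b := he (-v) h2 (neg_ne_zero.2 h)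
  rw [map_neg] at b
  linarith

lemma int_smul {T : Set F4} (hT : IsCC T) {p : F4} {c : ℝ} (hc : 0 < c) (hp : c • p ∈ interior T) :
    p ∈ interior T := by
  rw [mem_interior]
  refine ⟨c⁻¹ • interior T, ?_, isOpen_interior.smul₀ (inv_ne_zero hc.ne'), ?_⟩
  · rintro x ⟨y, hy, rfl⟩
    exact hT.smul _ (inv_pos.2 hc).le _ (interior_subset hy)
  · refine ⟨c • p, hp, ?_⟩
    simp [smul_smul, inv_mul_cancel₀ hc.ne']

lemma exists_ne : ∃ v : F4, v ≠ 0 := by
  refine ⟨EuclideanSpace.single 0 1, ?_⟩
  intro h
  have := congrFun (congrArg (fun z : F4 => (z : Fin 4 → ℝ)) h) 0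
  simp at this

lemma zero_not_int {T : Set F4} (hT : IsCC T) : (0 : F4) ∉ interior T := by
  intro h
  obtain ⟨v, hv⟩ := exists_ne
  obtain ⟨c, hc, h1⟩ := int_pt hT h v
  obtain ⟨c', hc', h2⟩ := int_pt hT h (-v)
  rw [smul_zero, zero_sub] at h1 h2
  rw [neg_neg] at h2
  exact hv (pointed hT h2 h1)

lemma span_top {T : Set F4} (hi : (interior T).Nonempty) : Submodule.span ℝ T = ⊤ := by
  apply Submodule.eq_top_of_nonempty_interior'
  exact hi.mono (interior_mono Submodule.subset_span)

lemma dim4 (S : Submodule ℝ F4) (h : Module.finrank ℝ S ≤ 3) : S ≠ ⊤ := by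
  intro e
  rw [e, finrank_top, finrank_euclideanSpace, Fintype.card_fin] at h
  omega

theorem pf_SCF (_h1 : T_FCB) (h2 : T_SPP) (h3 : T_EXT) : T_SCF := by
  intro T hT
  have hc := hT.cc
  have hsp : Submodule.span ℝ T = ⊤ := span_top hT.int
  refine ⟨?_, ?_⟩
  · intro t ht
    obtain ⟨htT, ht0, hti⟩ := ht
    have hF : ∀ r ∈ Fc T t, ∃ c : ℝ, r = c • t := by
      rintro r ⟨hr, c, hc0, hcr⟩
      have hni : c • t ∉ interior T := by
        intro h
        rcases hc0.eq_or_lt with h0 | h0
        · rw [← h0, zero_smul] at h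
          exact zero_not_int hc h
        · exact hti (int_smul hc h0 h)
      by_cases hz : c • t - r = 0
      · exact ⟨c, (sub_eq_zero.1 hz).symm⟩
      · obtain ⟨c', hc'⟩ := hT.str r hr (c • t - r) hcr hz (by
          rw [add_sub_cancel]; exact hni)
        have e : (1 + c') • r = (c' * c) • t := by
          have : r + c' • r = c' • (c • t - r) + c' • r := by rw [← hc']
          rw [add_smul, one_smul, this, smul_sub, sub_add_cancel, smul_smul]
        by_cases h1c : 1 + c' = 0
        · have hcm : c' = -1 := by linarith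
          rw [h1c, zero_smul, hcm] at e
          have ct : c • t = 0 := by
            have : ((-1 : ℝ) * c) • t = - (c • t) := by rw [neg_one_mul, neg_smul]
            rw [this] at e
            exact neg_eq_zero.1 e.symm
          rw [ct, zero_sub] at hcr
          exact ⟨0, by rw [pointed hc hr hcr, zero_smul]⟩
        · refine ⟨(1 + c')⁻¹ * (c' * c), ?_⟩
          rw [mul_smul, ← e, smul_smul, inv_mul_cancel₀ h1c, one_smul]
    have hSp : Sp T t ≠ ⊤ := by
      apply dim4
      have hle : Sp T t ≤ Submodule.span ℝ {t} := by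
        apply Submodule.span_le.2
        intro r hr
        obtain ⟨c, rfl⟩ := hF r hr
        exact Submodule.smul_mem _ _ (Submodule.mem_span_singleton_self t)
      have := Submodule.finrank_mono hle
      have h' := finrank_span_le_card (R := ℝ) ({t} : Set F4)
      simp only [Set.toFinset_singleton, Finset.card_singleton] at h'
      omega
    obtain ⟨ζ, hζ0, hζp, hζt⟩ := h2 F4 T t hc hsp htT hSp
    refine ⟨ζ, hζp, hζt, ?_⟩
    intro s hs hζs
    have hni : s + t ∉ interior T := by
      intro hi
      have : ∃ v, 0 < ζ v := by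
        by_contra hcon
        push Not at hcon
        apply hζ0
        ext v
        have a := hcon v
        have b := hcon (-v)
        rw [map_neg] at b
        simp only [LinearMap.zero_apply]
        linarith
      obtain ⟨v, hv⟩ := this
      obtain ⟨c, hc0, hcv⟩ := int_pt hc hi v
      have := hζp _ hcv
      rw [map_sub, map_smul, map_add, hζs, hζt] at this
      simp only [add_zero, smul_zero, zero_sub] at this
      linarith
    obtain ⟨c, rfl⟩ := hT.str s hs t htT ht0 hni
    refine ⟨max c 0, le_max_right _ _, ?_⟩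
    rcases le_or_gt 0 c with h | h
    · rw [max_eq_left h]
    · exfalso
      apply ht0
      apply pointed hc htT
      have := hc.smul (-c)⁻¹ (inv_pos.2 (by linarith)).le _ hs
      rw [smul_smul] at this
      have e : (-c)⁻¹ * c = -1 := by
        have : c ≠ 0 := h.ne
        field_simp
      rw [e, neg_one_smul] at this
      exact this
  · intro y y'
    obtain ⟨a, ha⟩ := hT.int
    have haT := interior_subset ha
    have hS : Submodule.span ℝ ({a, y, y'} : Set F4) ≠ ⊤ := by
      apply dim4
      have h' := finrank_span_finset_le_card (R := ℝ) ({a, y, y'} : Finset F4)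
      have h'' : (({a, y, y'} : Finset F4) : Set F4) = {a, y, y'} := by simp
      rw [h''] at h'
      exact h'.trans Finset.card_le_three
    obtain ⟨v, hv⟩ : ∃ v, v ∉ Submodule.span ℝ ({a, y, y'} : Set F4) := by
      by_contra hcon
      push Not at hcon
      exact hS (Submodule.eq_top_iff'.2 hcon)
    have hw : ∃ w, w ∉ T ∧ w ∉ Submodule.span ℝ ({a, y, y'} : Set F4) := by
      by_cases hvT : v ∈ T
      · refine ⟨-v, ?_, ?_⟩
        · intro hn
          have := pointed hc hvT hn
          rw [this] at hv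
          exact hv (Submodule.zero_mem _)
        · intro h
          exact hv (by simpa using Submodule.neg_mem _ h)
      · exact ⟨v, hvT, hv⟩
    obtain ⟨w, hwT, hwS⟩ := hw
    have hFa : Fc T a = T := by
      ext r
      constructor
      · intro h; exact h.1
      · intro h
        obtain ⟨c, hc0, hcr⟩ := int_pt hc ha r
        exact ⟨h, c, hc0.le, hcr⟩
    have hwa : w ∈ Sp T a := by
      rw [Sp, hFa, hsp]; trivial
    obtain ⟨s, hs0, hb, hab⟩ := h3 F4 T a w hc haT hwa hwT
    have hmem : ∀ x ∈ Submodule.span ℝ ({a, y, y'} : Set F4), a + s • w ≠ x := by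
      intro x hx e
      apply hwS
      have hsw : s • w ∈ Submodule.span ℝ ({a, y, y'} : Set F4) := by
        have : s • w = x - a := by rw [← e]; abel
        rw [this]
        exact Submodule.sub_mem _ hx (Submodule.subset_span (by simp))
      exact (Submodule.smul_mem_iff _ hs0.ne').1 hsw
    refine ⟨a + s • w, ⟨hb.1, hmem 0 (Submodule.zero_mem _), ?_⟩, ?_, ?_⟩
    · intro hi
      obtain ⟨c, hc0, hcr⟩ := int_pt hc hi a
      exact hab ⟨haT, c, hc0.le, hcr⟩
    · intro h
      exact hmem _ (Submodule.span_mono (by simp) h) rfl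
    · intro h
      exact hmem _ (Submodule.span_mono (by simp) h) rfl

end Pool.Agent.H86.KV
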