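import Pool.Agent.H61.KV.TS

/-! Kuiper board KV, module STJ. -/

open Topology Set
open Pool.Agent.H59 Pool.Agent.H64.LB Pool.Agent.H61.KU

namespace Pool.Agent.H86.KV

open Pool.Agent.H61.KV

theorem pf_STJ (h1 : T_STD) (h2 : T_TRA) (h3 : T_STK) (h4 : T_BSI) (h5 : T_P1N) (h6 : T_CNC)
    (h7 : T_FCB) (h8 : T_FTU) : T_STJ := by
  intro V _ _ _ m hm p hp q hq hov
  obtain ⟨hC, -, hmx, -, hMC, -, hMs, -⟩ := h6 V m hm
  have hpC : p ∈ Cn m := hp.1
  obtain ⟨Fa, Fb, Fc', Fd, Fe, Ff, Fg⟩ := h7 V (Cn m) p hC hpC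
  have hkey : ∀ g, g ∈ Cn m → (∀ r, r ∈ Cn m → r - g ∈ Sp (Cn m) p → r - g ∈ Cn m) →
      Foot (Cn m) p g g := by
    intro g hg hh r
    constructor
    · rintro ⟨hr, hrg⟩
      exact Fe _ (hh r hr hrg) hrg
    · intro h
      refine ⟨?_, Submodule.subset_span h⟩
      have := hC.add _ hg _ h.1
      rwa [add_sub_cancel] at this
  obtain ⟨c, x, hc, rfl⟩ := hq
  rcases hc.eq_or_lt with h0 | h0
  · rw [← h0, zero_smul]
    apply hkey 0 hC.zero
    intro r hr _
    rwa [sub_zero]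
  obtain ⟨L, hL⟩ := h1 V (Sp (Cn m) p) hm.rank (h5 V m hm p hp).1
  obtain ⟨t1, -, t3, -, t5, t6, t7⟩ := h2 V (E4 × E5) m L
  have hm' := t1 hm
  obtain ⟨hC', hsp', hmx', -, -, -, -, -⟩ := h6 (E4 × E5) (fun x => L (m x)) hm'
  have hstd : Std (fun x => L (m x)) (L p) := by
    refine ⟨hm', (t7 p).2 hp, fun v => ?_⟩
    have : v = L (L.symm v) := (L.apply_symm_apply v).symm
    rw [this, t6 p, hL]
  have hbB : (L (m x)).2 ∈ Bs (Cn (fun x => L (m x))) := ⟨(L (m x)).1, hmx' x⟩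
  have hint : (L (m x)).2 ∈ interior (Bs (Cn (fun x => L (m x)))) := by
    by_contra hni
    obtain ⟨κ, hκ0, hκp, hκb⟩ := (h4 _ hC' hsp').2.2.2.2 _ hbB hni
    apply hκ0
    have hξ : (κ ∘ₗ LinearMap.snd ℝ E4 E5) ∘ₗ (L : V →ₗ[ℝ] E4 × E5) = 0 := by
      apply hov
      · intro r hr
        have : L r ∈ Cn (fun x => L (m x)) := (t3 r).2 hr
        exact hκp _ ⟨(L r).1, this⟩
      · have : (L p).2 = 0 := (hL p).1 (Submodule.subset_span Fa)
        simp [this]
      · simp [hκb]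
    ext v
    have := LinearMap.congr_fun hξ (L.symm ((0 : E4), v))
    simpa using this
  have hlow := h3 _ _ hstd x hint
  have hfoot : Foot (Cn m) p (m x) (m x) := by
    apply hkey (m x) (hmx x)
    intro r hr hrs
    have e1 : (L r).2 = (L (m x)).2 := by
      have := (hL _).1 hrs
      rw [map_sub] at this
      exact sub_eq_zero.1 this
    have e2 : ((L r).1, (L (m x)).2) ∈ Cn (fun x => L (m x)) := by
      rw [← e1]
      exact (t3 r).2 hr
    have e3 := (hlow _).1 e2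
    rw [← t3 (r - m x)]
    have e4 : L (r - m x) = ((L r).1 - (L (m x)).1, (0 : E5)) := by
      rw [map_sub]
      ext1
      · rfl
      · change (L r).2 - (L (m x)).2 = 0
        rw [e1, sub_self]
    rw [e4]
    exact e3
  exact (h8 V (Cn m) p hC hpC).2.2.2 _ _ c h0 hfoot

end Pool.Agent.H86.KV
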