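import Pool.Agent.H61.KV.TF

/-! Kuiper board KV, module QUA. -/

namespace Pool.Agent.H86.KV

open Pool.Agent.H61.KV

/-- continuous additive maps -/
lemma add_lin (f : F4 → F4) (hc : Continuous f) (ha : ∀ u v, f (u + v) = f u + f v) :
    ∃ l : F4 →ₗ[ℝ] F4, ∀ u, l u = f u := by
  have h0 : f 0 = 0 := by
    have := ha 0 0
    simpa using this
  let F : F4 →+ F4 := { toFun := f, map_zero' := h0, map_add' := ha }
  refine ⟨(F.toRealLinearMap hc).toLinearMap, fun u => ?_⟩
  rfl

/-- maps with the parallelogram identity -/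
lemma par_bil (B : F4 → F4) (hc : Continuous B) (h0 : B 0 = 0)
    (hp : ∀ w w', B (w + w') + B (w - w') = (2 : ℝ) • B w + (2 : ℝ) • B w') :
    ∃ β : F4 →ₗ[ℝ] F4 →ₗ[ℝ] F4, (∀ u v, β u v = β v u) ∧ ∀ u, (2 : ℝ) • β u u = B u := by
  have hF : ∀ u v w, B (u + v + w) = B (u + v) + B (u + w) + B (v + w) - B u - B v - B w := by
    intro u v w
    have e1 := hp (u + v) w
    have e2 := hp u (v - w)
    have e3 := hp (u + w) v
    have e4 := hp v w
    have a1 : u + (v - w) = u + v - w := by abel
    have a2 : u - (v - w) = u + w - v := by abel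
    have a3 : u + w + v = u + v + w := by abel
    rw [a1, a2] at e2
    rw [a3] at e3
    have key : (2 : ℝ) • B (u + v + w) =
        (2 : ℝ) • (B (u + v) + B (u + w) + B (v + w) - B u - B v - B w) := by
      have s1 : B (u + v + w) = (2 : ℝ) • B (u + v) + (2 : ℝ) • B w - B (u + v - w) :=
        eq_sub_of_add_eq e1
      have s2 : B (u + v - w) = (2 : ℝ) • B u + (2 : ℝ) • B (v - w) - B (u + w - v) :=
        eq_sub_of_add_eq e2
      have s3 : B (u + v + w) = (2 : ℝ) • B (u + w) + (2 : ℝ) • B v - B (u + w - v) :=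
        eq_sub_of_add_eq e3
      have s4 : B (v - w) = (2 : ℝ) • B v + (2 : ℝ) • B w - B (v + w) := by
        rw [← e4]; abel
      have t : (2 : ℝ) • B (u + v + w) = B (u + v + w) + B (u + v + w) := two_smul ℝ _
      rw [t]
      nth_rewrite 1 [s1]
      rw [s3, s2, s4]
      module
    have := smul_right_injective F4 (two_ne_zero (α := ℝ)) key
    exact this
  have hQ : ∀ u v w, B (u + v + w) - B (u + v) - B w =
      (B (u + w) - B u - B w) + (B (v + w) - B v - B w) := by
    intro u v w
    rw [hF]; abel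
  have hQ' : ∀ w, ∃ l : F4 →ₗ[ℝ] F4, ∀ u, l u = B (u + w) - B u - B w := by
    intro w
    refine add_lin _ ?_ ?_
    · fun_prop
    · intro u v; exact hQ u v w
  choose l hl using hQ'
  refine ⟨LinearMap.mk₂ ℝ (fun u v => (1 / 4 : ℝ) • l v u) ?_ ?_ ?_ ?_, ?_, ?_⟩
  · intro u u' v; simp only [map_add, smul_add]
  · intro c u v; simp only [map_smul]; rw [smul_comm]
  · intro u v v'
    have : l (v + v') u = l v u + l v' u := by
      rw [hl, hl, hl]
      have := hQ v v' u
      rw [show v + v' + u = u + (v + v') by abel, show v + u = u + v by abel,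
        show v' + u = u + v' by abel] at this
      have t : B (u + (v + v')) - B u - B (v + v') = B (u + (v + v')) - B (v + v') - B u := by abel
      rw [t, this]; abel
    rw [this, smul_add]
  · intro c u v
    have hs : ∀ v, l v u = l u v := by
      intro v
      rw [hl, hl, add_comm]; abel
    change (1 / 4 : ℝ) • l (c • v) u = c • (1 / 4 : ℝ) • l v u
    rw [hs, hs, map_smul, smul_comm]
  · intro u v
    simp only [LinearMap.mk₂_apply]
    rw [hl, hl, add_comm]
    congr 1
    abel
  · intro u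
    simp only [LinearMap.mk₂_apply]
    rw [hl]
    have := hp u u
    rw [sub_self, h0, add_zero] at this
    rw [this]
    module

theorem pf_QUA : T_QUA := by
  intro g hg hD
  have hB : ∀ w w', Dl g 0 (w + w') + Dl g 0 (w - w') =
      (2 : ℝ) • Dl g 0 w + (2 : ℝ) • Dl g 0 w' := by
    intro w w'
    have e : Dl g 0 (w + w') + Dl g 0 (w - w') =
        Dl g (0 + w') w + Dl g (0 - w') w + (2 : ℝ) • Dl g 0 w' := by
      simp only [Dl]
      rw [show (0 : F4) + (w + w') = 0 + w' + w by abel,
        show (0 : F4) + (w - w') = 0 - w' + w by abel,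
        show (0 : F4) - (w + w') = 0 - w' - w by abel,
        show (0 : F4) - (w - w') = 0 + w' - w by abel]
      module
    rw [e, hD w (0 + w') 0, hD w (0 - w') 0]
    module
  have hc : Continuous (fun w => Dl g 0 w) := by
    unfold Dl
    fun_prop
  have h0 : Dl g 0 0 = 0 := by
    simp only [Dl, add_zero, sub_zero]
    module
  obtain ⟨β, hs, hβ⟩ := par_bil _ hc h0 hB
  have hh : ∀ u w, (g (u + w) - g 0 - β (u + w) (u + w)) + (g (u - w) - g 0 - β (u - w) (u - w)) =
      (2 : ℝ) • (g u - g 0 - β u u) := by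
    intro u w
    have e1 : Dl g u w = (2 : ℝ) • β w w := by rw [hβ w, hD w u 0]
    simp only [Dl] at e1
    have e2 : g (u + w) = (2 : ℝ) • β w w + (2 : ℝ) • g u - g (u - w) := by
      rw [← e1]; abel
    rw [e2]
    simp only [map_add, map_sub, LinearMap.add_apply, LinearMap.sub_apply]
    rw [hs w u]
    module
  have hh0 : g 0 - g 0 - β 0 0 = 0 := by simp
  have h2 : ∀ u, g ((2 : ℝ) • u) - g 0 - β ((2 : ℝ) • u) ((2 : ℝ) • u) =
      (2 : ℝ) • (g u - g 0 - β u u) := by
    intro u
    have := hh u u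
    rw [sub_self, hh0, add_zero, ← two_smul ℝ u] at this
    exact this
  obtain ⟨l, hl⟩ := add_lin (fun u => g u - g 0 - β u u) (by
    have hb : Continuous (fun u => β u u) := by
      have : (fun u => β u u) = fun u => (1 / 2 : ℝ) • Dl g 0 u := by
        funext u
        rw [← hβ u]; module
      rw [this]
      exact hc.const_smul (1 / 2 : ℝ)
    exact (hg.sub continuous_const).sub hb) (by
    intro a b
    have e := hh ((1 / 2 : ℝ) • (a + b)) ((1 / 2 : ℝ) • (a - b))
    rw [show (1 / 2 : ℝ) • (a + b) + (1 / 2 : ℝ) • (a - b) = a by module,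
      show (1 / 2 : ℝ) • (a + b) - (1 / 2 : ℝ) • (a - b) = b by module,
      ← h2 ((1 / 2 : ℝ) • (a + b)), show (2 : ℝ) • (1 / 2 : ℝ) • (a + b) = a + b by module] at e
    exact e.symm)
  refine ⟨g 0, l, β, hs, fun u => ?_⟩
  rw [hl u]
  abel

end Pool.Agent.H86.KV
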